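import Mathlib
import Pool.Agent.Lib.MP_8d00da_gt.h42s.Defs

namespace Pool.Agent.Lib.MP_8d00da_gt.h25
end Pool.Agent.Lib.MP_8d00da_gt.h25
namespace Pool.Agent.Lib.MP_8d00da_gt.h42
end Pool.Agent.Lib.MP_8d00da_gt.h42
namespace Pool.Agent.Lib.MP_8d00da_gt.h42o
end Pool.Agent.Lib.MP_8d00da_gt.h42o
namespace Pool.Agent.Lib.MP_8d00da_gt.h97r
end Pool.Agent.Lib.MP_8d00da_gt.h97r
namespace Pool.Agent.Lib.MP_8d00da_gt.h97s
end Pool.Agent.Lib.MP_8d00da_gt.h97s


/-!
# Folding coordinates: definitions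
-/

namespace Pool.Agent.Lib.MP_8d00da_gt.h97t

open MeasureTheory Set Filter
open Pool.Agent.Lib.MP_8d00da_gt.h25 Pool.Agent.Lib.MP_8d00da_gt.h42
open Pool.Agent.Lib.MP_8d00da_gt.h42s Pool.Agent.Lib.MP_8d00da_gt.h42o
open Pool.Agent.Lib.MP_8d00da_gt.h97r Pool.Agent.Lib.MP_8d00da_gt.h97s
open scoped Topology NNReal ENNReal

set_option linter.unusedSectionVars false

variable {n : ℕ}

/-- The folding map: absolute values in the coordinates of `I`. -/
noncomputable def fold (I : Finset (Fin n)) (x : Vn n) : Vn n :=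
  WithLp.toLp 2 fun i => if i ∈ I then |x i| else x i

/-- `h` vanishes unless all coordinates in `I` are nonnegative, and is non-increasing in each of
these coordinates. -/
structure Mono (I : Finset (Fin n)) (h : Vn n → ℝ) : Prop where
  supp : ∀ x, (∃ i ∈ I, x i < 0) → h x = 0
  anti : ∀ x y, (∀ i ∈ I, 0 ≤ y i ∧ y i ≤ x i) → (∀ i, i ∉ I → y i = x i) → h x ≤ h y

/-- The unfolded density. -/
noncomputable def unf (I : Finset (Fin n)) (h : Vn n → ℝ) (x : Vn n) : ℝ :=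
  (2 : ℝ)⁻¹ ^ I.card * h (fold I x)

lemma fold_apply (I : Finset (Fin n)) (x : Vn n) (i : Fin n) :
    fold I x i = if i ∈ I then |x i| else x i := rfl

end Pool.Agent.Lib.MP_8d00da_gt.h97t
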