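import Mathlib
import Pool.Agent.Lib.MP_8d00da_gt.h97t.FDefs

namespace Pool.Agent.Lib.MP_8d00da_gt.h25
end Pool.Agent.Lib.MP_8d00da_gt.h25
namespace Pool.Agent.Lib.MP_8d00da_gt.h42
end Pool.Agent.Lib.MP_8d00da_gt.h42
namespace Pool.Agent.Lib.MP_8d00da_gt.h42o
end Pool.Agent.Lib.MP_8d00da_gt.h42o
namespace Pool.Agent.Lib.MP_8d00da_gt.h97r
end Pool.Agent.Lib.MP_8d00da_gt.h97r
namespace Pool.Agent.Lib.MP_8d00da_gt.h97s
end Pool.Agent.Lib.MP_8d00da_gt.h97s


/-!
# Derivatives of folded functions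
-/

namespace Pool.Agent.Lib.MP_8d00da_gt.h97t

open MeasureTheory Set Filter
open Pool.Agent.Lib.MP_8d00da_gt.h25 Pool.Agent.Lib.MP_8d00da_gt.h42
open Pool.Agent.Lib.MP_8d00da_gt.h42s Pool.Agent.Lib.MP_8d00da_gt.h42o
open Pool.Agent.Lib.MP_8d00da_gt.h97r Pool.Agent.Lib.MP_8d00da_gt.h97s
open scoped Topology NNReal ENNReal

set_option linter.unusedSectionVars false

variable {n : ℕ}

/-- If all coordinates of `x` in `I` are nonzero, then near `x` the folding map is the linear
isometry which changes the signs of the negative coordinates in `I` (`EuclideanSpace` version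
`LinearIsometryEquiv.piLpCongrRight`, see `h42s.fl`), so
`fderiv (f ∘ fold I) x = (fderiv f (fold I x)) ∘ R` (`LinearIsometryEquiv.comp_fderiv'` or
`ContinuousLinearEquiv.comp_right_fderiv`; also for non-differentiable `f`), and the norm of
the composition with a linear isometry equivalence is the norm. -/
theorem fold_fderiv (I : Finset (Fin n)) (f : Vn n → ℝ) {x : Vn n} (hx : ∀ i ∈ I, x i ≠ 0) :
    ‖fderiv ℝ (fun y => f (fold I y)) x‖ = ‖fderiv ℝ f (fold I x)‖ := by
  classical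
  let R : Vn n ≃ₗᵢ[ℝ] Vn n := LinearIsometryEquiv.piLpCongrRight 2 fun j =>
    if j ∈ I ∧ x j < 0 then LinearIsometryEquiv.neg ℝ else LinearIsometryEquiv.refl ℝ ℝ
  have hR : ∀ (y : Vn n) (j : Fin n), R y j = if j ∈ I ∧ x j < 0 then - y j else y j := by
    intro y j
    simp only [R, LinearIsometryEquiv.piLpCongrRight_apply]
    split_ifs <;> simp
  have h1 : ∀ᶠ y : Vn n in 𝓝 x, ∀ i ∈ I, (0 < x i → 0 < y i) ∧ (x i < 0 → y i < 0) := by
    rw [Filter.eventually_all_finset]
    intro i hi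
    have hc : ContinuousAt (fun y : Vn n => y i) x := by fun_prop
    rcases lt_or_gt_of_ne (hx i hi) with h | h
    · filter_upwards [hc.eventually (gt_mem_nhds h)] with y hy
      exact ⟨fun h' => absurd h' (not_lt.2 h.le), fun _ => hy⟩
    · filter_upwards [hc.eventually (lt_mem_nhds h)] with y hy
      exact ⟨fun _ => hy, fun h' => absurd h' (not_lt.2 (le_of_lt h))⟩
  have h2 : ∀ y : Vn n, (∀ i ∈ I, (0 < x i → 0 < y i) ∧ (x i < 0 → y i < 0)) → fold I y = R y := by
    intro y hy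
    ext j
    rw [fold_apply, hR]
    by_cases hj : j ∈ I
    · rw [if_pos hj]
      rcases lt_or_gt_of_ne (hx j hj) with h | h
      · rw [if_pos ⟨hj, h⟩, abs_of_neg ((hy j hj).2 h)]
      · rw [if_neg (fun h' => absurd h'.2 (not_lt.2 (le_of_lt h))), abs_of_pos ((hy j hj).1 h)]
    · rw [if_neg hj, if_neg (fun h' => hj h'.1)]
  have hev : (fun y => f (fold I y)) =ᶠ[𝓝 x] (f ∘ R.toContinuousLinearEquiv) := by
    filter_upwards [h1] with y hy
    change f (fold I y) = f (R y)
    rw [h2 y hy]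
  have hx' : fold I x = R x := h2 x fun i _ => ⟨id, id⟩
  rw [hev.fderiv_eq, ContinuousLinearEquiv.comp_right_fderiv, hx']
  exact ContinuousLinearMap.opNorm_comp_linearIsometryEquiv (fderiv ℝ f (R x)) R

/-- The hyperplanes `x i = 0` are null sets. -/
theorem ae_ne (I : Finset (Fin n)) : ∀ᵐ x : Vn n, ∀ i ∈ I, x i ≠ 0 := by
  rw [Filter.eventually_all_finset]
  intro i _
  exact (PiLp.volume_preserving_ofLp (Fin n)).quasiMeasurePreserving.ae
    (Measure.ae_eval_ne (μ := fun _ : Fin n => (volume : Measure ℝ)) i 0)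

end Pool.Agent.Lib.MP_8d00da_gt.h97t
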