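import Mathlib
import Pool.Agent.Lib.MP_8d00da_gt.h97t.FDefs

namespace Pool.Agent.Lib.MP_8d00da_gt.h25
end Pool.Agent.Lib.MP_8d00da_gt.h25
namespace Pool.Agent.Lib.MP_8d00da_gt.h42
end Pool.Agent.Lib.MP_8d00da_gt.h42
namespace Pool.Agent.Lib.MP_8d00da_gt.h42o
end Pool.Agent.Lib.MP_8d00da_gt.h42o
namespace Pool.Agent.Lib.MP_8d00da_gt.h97r
end Pool.Agent.Lib.MP_8d00da_gt.h97r
namespace Pool.Agent.Lib.MP_8d00da_gt.h97s
end Pool.Agent.Lib.MP_8d00da_gt.h97s


/-!
# Moments of monotone densities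
-/

namespace Pool.Agent.Lib.MP_8d00da_gt.h97t

open MeasureTheory Set Filter
open Pool.Agent.Lib.MP_8d00da_gt.h25 Pool.Agent.Lib.MP_8d00da_gt.h42
open Pool.Agent.Lib.MP_8d00da_gt.h42s Pool.Agent.Lib.MP_8d00da_gt.h42o
open Pool.Agent.Lib.MP_8d00da_gt.h97r Pool.Agent.Lib.MP_8d00da_gt.h97s
open scoped Topology NNReal ENNReal

set_option linter.unusedSectionVars false

variable {n : ℕ}

variable {I : Finset (Fin n)} {h : Vn n → ℝ}

/-- Scaling of the coordinate `i` by `t`, as a linear map. -/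
private noncomputable def FMom_L (i : Fin n) (t : ℝ) : Vn n →ₗ[ℝ] Vn n :=
  Matrix.toEuclideanLin (Matrix.diagonal (Function.update (fun _ => (1 : ℝ)) i t))

private lemma FMom_L_apply (i : Fin n) (t : ℝ) (x : Vn n) (j : Fin n) :
    FMom_L i t x j = Function.update (fun _ => (1 : ℝ)) i t j * x j := by
  unfold FMom_L
  rw [Matrix.toEuclideanLin, Matrix.toLpLin_apply]
  simp [Matrix.mulVec_diagonal]

private lemma FMom_L_same (i : Fin n) (t : ℝ) (x : Vn n) : FMom_L i t x i = t * x i := by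
  rw [FMom_L_apply]
  simp

private lemma FMom_L_other (i : Fin n) (t : ℝ) (x : Vn n) {j : Fin n} (hj : j ≠ i) :
    FMom_L i t x j = x j := by
  rw [FMom_L_apply]
  simp [Function.update_of_ne hj]

private lemma FMom_L_det (i : Fin n) (t : ℝ) : LinearMap.det (FMom_L i t) = t := by
  unfold FMom_L
  rw [Matrix.toEuclideanLin_eq_toLin_orthonormal, LinearMap.det_toLin, Matrix.det_diagonal,
    Finset.prod_update_of_mem (Finset.mem_univ i)]
  simp

private lemma FMom_map (i : Fin n) {t : ℝ} (ht : 0 < t) :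
    Measure.map (FMom_L i t) (volume : Measure (Vn n)) = ENNReal.ofReal t⁻¹ • volume := by
  have hdet : LinearMap.det (FMom_L i t) ≠ 0 := by
    rw [FMom_L_det]
    exact ht.ne'
  rw [Measure.map_linearMap_addHaar_eq_smul_addHaar (volume : Measure (Vn n)) hdet, FMom_L_det,
    abs_of_pos (inv_pos.2 ht)]

private lemma FMom_cont (i : Fin n) (t : ℝ) : Continuous (FMom_L i t) :=
  (FMom_L i t).continuous_of_finiteDimensional

private lemma FMom_cv (i : Fin n) {t : ℝ} (ht : 0 < t) {Φ : Vn n → ℝ} (hΦ : Measurable Φ) :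
    ∫ x, Φ (FMom_L i t x) = t⁻¹ * ∫ x, Φ x := by
  have h1 : ∫ x, Φ (FMom_L i t x) = ∫ x, Φ x ∂(Measure.map (FMom_L i t) volume) :=
    (integral_map (FMom_cont i t).measurable.aemeasurable hΦ.aestronglyMeasurable).symm
  rw [h1, FMom_map i ht, integral_smul_measure, ENNReal.toReal_ofReal (inv_nonneg.2 ht.le),
    smul_eq_mul]

private lemma FMom_int (i : Fin n) {t : ℝ} (ht : 0 < t) {Φ : Vn n → ℝ} (hΦ : Measurable Φ)
    (hi : Integrable Φ) : Integrable fun x => Φ (FMom_L i t x) := by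
  have h1 : Integrable Φ (Measure.map (FMom_L i t) (volume : Measure (Vn n))) := by
    rw [FMom_map i ht]
    exact hi.smul_measure ENNReal.ofReal_ne_top
  exact (integrable_map_measure hΦ.aestronglyMeasurable
    (FMom_cont i t).measurable.aemeasurable).1 h1

private lemma FMom_coord (i : Fin n) : Measurable fun x : Vn n => x i :=
  (by fun_prop : Continuous fun x : Vn n => x i).measurable

/-- Scaling of one coordinate: for `0 < t ≤ 1` and a nonnegative function `ψ`,
`∫ ψ (x i / t) h ≥ t ∫ ψ (x i) h`: change of variables `x i = t * u i` (linear map with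
determinant `t`, `MeasureTheory.Measure.addHaar_preimage_linearMap` or
`integral_comp_linearMap`-type lemma; see `RQJ_cv` in `h97r/RQJ.lean`) gives
`∫ ψ (x i / t) h x = t ∫ ψ (u i) h (u with t * u i)`, and `h (…) ≥ h u` by `hM.anti` (if `u i < 0`,
both sides vanish). -/
theorem scale_le (h0 : ∀ x, 0 ≤ h x) (hm : Measurable h) (hM : Mono I h) {i : Fin n}
    (hi : i ∈ I) {ψ : ℝ → ℝ} (hψ : ∀ s, 0 ≤ ψ s) (hψm : Measurable ψ) {t : ℝ} (ht : 0 < t)
    (ht1 : t ≤ 1) (hint : Integrable fun x : Vn n => ψ (x i / t) * h x)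
    (hint1 : Integrable fun x : Vn n => ψ (x i) * h x) :
    t * ∫ x : Vn n, ψ (x i) * h x ≤ ∫ x : Vn n, ψ (x i / t) * h x := by
  have hΦ : Measurable fun x : Vn n => ψ (x i / t) * h x :=
    (hψm.comp ((FMom_coord i).div_const t)).mul hm
  have hcv := FMom_cv i ht hΦ
  have hI := FMom_int i ht hΦ hint
  have hle : ∫ x : Vn n, ψ (x i) * h x ≤
      ∫ x : Vn n, ψ (FMom_L i t x i / t) * h (FMom_L i t x) := by
    refine integral_mono hint1 hI fun x => ?_
    have e1 : FMom_L i t x i / t = x i := by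
      rw [FMom_L_same]
      field_simp
    simp only [e1]
    refine mul_le_mul_of_nonneg_left ?_ (hψ _)
    by_cases hx : ∃ j ∈ I, x j < 0
    · rw [hM.supp x hx]
      exact h0 _
    · push Not at hx
      refine hM.anti _ _ (fun j hj => ?_) fun j hj => ?_
      · by_cases hji : j = i
        · subst hji
          rw [FMom_L_same]
          have := hx j hj
          exact ⟨mul_nonneg ht.le this, by nlinarith⟩
        · rw [FMom_L_other i t x hji]
          exact ⟨hx j hj, le_refl _⟩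
      · have hji : j ≠ i := fun e => hj (e ▸ hi)
        exact FMom_L_other i t x hji
  rw [hcv] at hle
  calc t * ∫ x : Vn n, ψ (x i) * h x
      ≤ t * (t⁻¹ * ∫ x : Vn n, ψ (x i / t) * h x) := mul_le_mul_of_nonneg_left hle ht.le
    _ = ∫ x : Vn n, ψ (x i / t) * h x := by
        rw [← mul_assoc, mul_inv_cancel₀ ht.ne', one_mul]

/-- With `A = ∫ x i ² h`, `B = ∫ x i h`, `M = ∫ h` and `ψ s = (s / 2 - λ) ²`, `scale_le` reads
`t (A / 4 - λ B + λ ² M) ≤ A / (4 t ²) - λ B / t + λ ² M` for `0 < t ≤ 1`. Subtract, divide by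
`1 - t` and let `t → 1`: `0 ≤ 3 A / 4 - 2 λ B + λ ² M` for every `λ`; take the discriminant. -/
theorem mono_mom (h0 : ∀ x, 0 ≤ h x) (hm : Measurable h) (hM : Mono I h) (hi0 : Integrable h)
    {i : Fin n} (hi : i ∈ I) (hi1 : Integrable fun x : Vn n => x i * h x)
    (hi2 : Integrable fun x : Vn n => (x i) ^ 2 * h x) :
    4 * (∫ x : Vn n, x i * h x) ^ 2 ≤ 3 * (∫ x : Vn n, (x i) ^ 2 * h x) * ∫ x, h x := by
  set A := ∫ x : Vn n, (x i) ^ 2 * h x with hA
  set B := ∫ x : Vn n, x i * h x with hB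
  set M := ∫ x : Vn n, h x with hMd
  have key : ∀ (l t : ℝ), 0 < t →
      (Integrable fun x : Vn n => (x i / t / 2 - l) ^ 2 * h x) ∧
      ∫ x : Vn n, (x i / t / 2 - l) ^ 2 * h x = A / (4 * t ^ 2) - l * B / t + l ^ 2 * M := by
    intro l t ht
    have e0 : (fun x : Vn n => (x i / t / 2 - l) ^ 2 * h x) =
        fun x => (1 / (4 * t ^ 2)) * ((x i) ^ 2 * h x) - (l / t) * (x i * h x) + l ^ 2 * h x := by
      funext x
      field_simp
      ring
    have i1 : Integrable fun x : Vn n => (1 / (4 * t ^ 2)) * ((x i) ^ 2 * h x) :=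
      hi2.const_mul _
    have i2 : Integrable fun x : Vn n => (l / t) * (x i * h x) := hi1.const_mul _
    have i3 : Integrable fun x : Vn n => l ^ 2 * h x := hi0.const_mul _
    rw [e0]
    refine ⟨(i1.sub i2).add i3, ?_⟩
    have e1 : ∫ x : Vn n, ((1 / (4 * t ^ 2)) * ((x i) ^ 2 * h x) - (l / t) * (x i * h x) +
        l ^ 2 * h x) = (∫ x : Vn n, ((1 / (4 * t ^ 2)) * ((x i) ^ 2 * h x) -
          (l / t) * (x i * h x))) + ∫ x : Vn n, l ^ 2 * h x :=
      integral_add (i1.sub i2) i3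
    have e2 : ∫ x : Vn n, ((1 / (4 * t ^ 2)) * ((x i) ^ 2 * h x) - (l / t) * (x i * h x)) =
        (∫ x : Vn n, (1 / (4 * t ^ 2)) * ((x i) ^ 2 * h x)) - ∫ x : Vn n, (l / t) * (x i * h x) :=
      integral_sub i1 i2
    rw [e1, e2, integral_const_mul, integral_const_mul, integral_const_mul, ← hA, ← hB, ← hMd]
    ring
  have main : ∀ l t : ℝ, 0 < t → t < 1 →
      0 ≤ A * (1 + t + t ^ 2) - 4 * l * B * (t * (1 + t)) + 4 * l ^ 2 * M * t ^ 2 := by
    intro l t ht ht1
    have k1 := key l t ht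
    have k2 := key l 1 one_pos
    have hs := scale_le (ψ := fun s => (s / 2 - l) ^ 2) h0 hm hM hi (fun s => sq_nonneg _)
      (by fun_prop) ht ht1.le k1.1 (by
        have := k2.1
        simp only [div_one] at this
        exact this)
    have k3 := k2.2
    simp only [div_one] at k3
    have hs' : t * (A / (4 * 1 ^ 2) - l * B + l ^ 2 * M) ≤
        A / (4 * t ^ 2) - l * B / t + l ^ 2 * M := by
      rw [← k3, ← k1.2]
      exact hs
    have h4 : 0 < 4 * t ^ 2 := by positivity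
    have h5 := mul_le_mul_of_nonneg_left hs' h4.le
    have e1 : 4 * t ^ 2 * (A / (4 * t ^ 2) - l * B / t + l ^ 2 * M) =
        A - 4 * l * B * t + 4 * l ^ 2 * M * t ^ 2 := by
      field_simp
    rw [e1] at h5
    have h6 : 0 ≤ (1 - t) *
        (A * (1 + t + t ^ 2) - 4 * l * B * (t * (1 + t)) + 4 * l ^ 2 * M * t ^ 2) := by
      nlinarith [h5]
    exact nonneg_of_mul_nonneg_right h6 (by linarith)
  have lim : ∀ l : ℝ, 0 ≤ (4 * M) * (l * l) + (-8 * B) * l + 3 * A := by
    intro l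
    have hc : Continuous fun t : ℝ =>
        A * (1 + t + t ^ 2) - 4 * l * B * (t * (1 + t)) + 4 * l ^ 2 * M * t ^ 2 := by fun_prop
    have ht : Tendsto (fun t : ℝ =>
        A * (1 + t + t ^ 2) - 4 * l * B * (t * (1 + t)) + 4 * l ^ 2 * M * t ^ 2) (𝓝[<] 1)
        (𝓝 (A * (1 + 1 + 1 ^ 2) - 4 * l * B * (1 * (1 + 1)) + 4 * l ^ 2 * M * 1 ^ 2)) :=
      (hc.tendsto 1).mono_left nhdsWithin_le_nhds
    have hev : ∀ᶠ t in 𝓝[<] (1 : ℝ), 0 ≤
        A * (1 + t + t ^ 2) - 4 * l * B * (t * (1 + t)) + 4 * l ^ 2 * M * t ^ 2 := by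
      have : Ioo (0 : ℝ) 1 ∈ 𝓝[<] (1 : ℝ) := Ioo_mem_nhdsLT one_pos
      filter_upwards [this] with t ht
      exact main l t ht.1 ht.2
    have h1 := ge_of_tendsto ht hev
    nlinarith [h1]
  have hd := discrim_le_zero lim
  unfold discrim at hd
  nlinarith [hd]

end Pool.Agent.Lib.MP_8d00da_gt.h97t
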