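import Mathlib
import Pool.Agent.Lib.MP_8d00da_gt.h97t.FDefs
import Pool.Agent.Lib.MP_8d00da_gt.h97s.KDefs

/-!
# The unfolded density
-/

namespace Pool.Agent.Lib.MP_8d00da_gt.h97t

open MeasureTheory Set Filter
open Pool.Agent.Lib.MP_8d00da_gt.h25 Pool.Agent.Lib.MP_8d00da_gt.h42
open Pool.Agent.Lib.MP_8d00da_gt.h42s Pool.Agent.Lib.MP_8d00da_gt.h42o
open Pool.Agent.Lib.MP_8d00da_gt.h97r Pool.Agent.Lib.MP_8d00da_gt.h97s
open scoped Topology NNReal ENNReal

set_option linter.unusedSectionVars false

variable {n : ℕ}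

variable {I : Finset (Fin n)} {h : Vn n → ℝ}

theorem unf_nonneg (h0 : ∀ x, 0 ≤ h x) (x : Vn n) : 0 ≤ unf I h x :=
  mul_nonneg (by positivity) (h0 _)

private lemma fold_cont_aux : Continuous (fold I) := by
  refine (PiLp.continuous_toLp 2 _).comp (continuous_pi fun i => ?_)
  have h1 : Continuous fun x : Vn n => x i := (EuclideanSpace.proj i : Vn n →L[ℝ] ℝ).continuous
  by_cases hi : i ∈ I
  · simp only [if_pos hi]
    exact h1.abs
  · simp only [if_neg hi]
    exact h1

theorem unf_meas (hm : Measurable h) : Measurable (unf I h) :=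
  (hm.comp fold_cont_aux.measurable).const_mul _

/-- `|(1 - a) x i + a y i| ≤ (1 - a) |x i| + a |y i|`, `hM.anti` and `hlc`. -/
theorem unf_lc (h0 : ∀ x, 0 ≤ h x) (hM : Mono I h) (hlc : LogConc h) : LogConc (unf I h) := by
  intro a ha0 ha1 x y
  have hc : (0 : ℝ) < (2 : ℝ)⁻¹ ^ I.card := by positivity
  have h1 := hlc a ha0 ha1 (fold I x) (fold I y)
  have h2 : h ((1 - a) • fold I x + a • fold I y) ≤ h (fold I ((1 - a) • x + a • y)) := by
    apply hM.anti
    · intro i hi
      rw [fold_apply, if_pos hi]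
      refine ⟨abs_nonneg _, ?_⟩
      have e1 : ((1 - a) • x + a • y) i = (1 - a) * x i + a * y i := rfl
      have e2 : ((1 - a) • fold I x + a • fold I y) i = (1 - a) * fold I x i + a * fold I y i := rfl
      rw [e1, e2, fold_apply, fold_apply, if_pos hi, if_pos hi]
      refine (abs_add_le _ _).trans (le_of_eq ?_)
      rw [abs_mul, abs_mul, abs_of_pos ha0, abs_of_pos (by linarith : 0 < 1 - a)]
    · intro i hi
      rw [fold_apply, if_neg hi]
      have e1 : ((1 - a) • x + a • y) i = (1 - a) * x i + a * y i := rfl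
      have e2 : ((1 - a) • fold I x + a • fold I y) i = (1 - a) * fold I x i + a * fold I y i := rfl
      rw [e1, e2, fold_apply, fold_apply, if_neg hi, if_neg hi]
  unfold unf
  rw [Real.mul_rpow hc.le (h0 _), Real.mul_rpow hc.le (h0 _)]
  have h3 : ((2 : ℝ)⁻¹ ^ I.card) ^ (1 - a) * ((2 : ℝ)⁻¹ ^ I.card) ^ a = (2 : ℝ)⁻¹ ^ I.card := by
    rw [← Real.rpow_add hc]
    simp
  calc ((2 : ℝ)⁻¹ ^ I.card) ^ (1 - a) * h (fold I x) ^ (1 - a) *
        (((2 : ℝ)⁻¹ ^ I.card) ^ a * h (fold I y) ^ a)
      = (((2 : ℝ)⁻¹ ^ I.card) ^ (1 - a) * ((2 : ℝ)⁻¹ ^ I.card) ^ a) *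
        (h (fold I x) ^ (1 - a) * h (fold I y) ^ a) := by ring
    _ = (2 : ℝ)⁻¹ ^ I.card * (h (fold I x) ^ (1 - a) * h (fold I y) ^ a) := by rw [h3]
    _ ≤ (2 : ℝ)⁻¹ ^ I.card * h (fold I ((1 - a) • x + a • y)) :=
        mul_le_mul_of_nonneg_left (h1.trans h2) hc.le

/-- The sign changes `h42s.fl i`, `i ∈ I`, are symmetries of order two and rank `≤ 1`; a vector
fixed by all of them lies in the span of the `ee l`, `l ∉ I`, of dimension at most
`n - I.card ≤ d`. -/
theorem unf_fix {d : ℕ} (hd : n ≤ I.card + d) : FixL 1 d (unf I h) := by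
  classical
  refine ⟨Submodule.span ℝ (((Iᶜ).image ee : Finset (Vn n)) : Set (Vn n)), ?_, fun v hv => ?_⟩
  · have h1 : Module.finrank ℝ (Submodule.span ℝ (((Iᶜ).image ee : Finset (Vn n)) : Set (Vn n))) ≤
        ((Iᶜ).image (ee : Fin n → Vn n)).card := finrank_span_finset_le_card _
    have h2 : ((Iᶜ).image (ee : Fin n → Vn n)).card ≤ (Iᶜ).card := Finset.card_image_le
    rw [Finset.card_compl, Fintype.card_fin] at h2
    omega
  · have h0 : ∀ i ∈ I, v i = 0 := by
      intro i hi
      have h1 := hv (fl i).toLinearEquiv (fun x => ?_) ⟨2, by norm_num, fun x => ?_⟩ ?_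
      · have h2 : fl i v = v := h1
        have h3 : fl i v i = v i := by rw [h2]
        rw [fl_apply, if_pos rfl] at h3
        linarith
      · show unf I h (fl i x) = unf I h x
        unfold unf
        congr 2
        ext j
        rw [fold_apply, fold_apply, fl_apply]
        by_cases hj : j ∈ I
        · rw [if_pos hj, if_pos hj]
          split_ifs
          · rw [abs_neg]
          · rfl
        · rw [if_neg hj, if_neg hj, if_neg]
          rintro rfl
          exact hj hi
      · rw [pow_two]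
        exact fl_fl i x
      · have h4 : LinearMap.range ((((fl i).toLinearEquiv : Vn n ≃ₗ[ℝ] Vn n) : Vn n →ₗ[ℝ] Vn n) -
            LinearMap.id) ≤ Submodule.span ℝ {(ee i : Vn n)} := by
          rintro _ ⟨x, rfl⟩
          rw [Submodule.mem_span_singleton]
          refine ⟨-2 * x i, ?_⟩
          show (-2 * x i) • (ee i : Vn n) = fl i x - x
          ext j
          have e1 : ((-2 * x i) • (ee i : Vn n)) j = (-2 * x i) * (ee i : Vn n) j := rfl
          have e2 : (fl i x - x) j = fl i x j - x j := rfl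
          rw [e1, e2, fl_apply, ee_apply]
          split_ifs with h5
          · rw [h5]; ring
          · ring
        refine (Submodule.finrank_mono h4).trans ?_
        have h6 : Module.finrank ℝ (Submodule.span ℝ ((({ee i} : Finset (Vn n)) : Finset (Vn n)) : Set (Vn n))) ≤
            ({ee i} : Finset (Vn n)).card := finrank_span_finset_le_card _
        rw [Finset.coe_singleton, Finset.card_singleton] at h6
        exact h6
    have h5 : v = ∑ l ∈ Iᶜ, v l • (ee l : Vn n) := by
      ext j
      rw [WithLp.ofLp_sum, Finset.sum_apply]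
      have e1 : ∀ l, (v l • (ee l : Vn n)) j = v l * (if j = l then (1 : ℝ) else 0) := fun l => by
        rw [← ee_apply]
        rfl
      rw [Finset.sum_congr rfl fun l _ => e1 l]
      simp only [mul_ite, mul_one, mul_zero]
      rw [Finset.sum_ite_eq]
      split_ifs with h6
      · rfl
      · rw [Finset.mem_compl, not_not] at h6
        exact h0 j h6
    rw [h5]
    refine Submodule.sum_mem _ fun l hl => Submodule.smul_mem _ _ (Submodule.subset_span ?_)
    exact Finset.mem_coe.2 (Finset.mem_image_of_mem _ hl)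

end Pool.Agent.Lib.MP_8d00da_gt.h97t
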