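import Mathlib
import Pool.Agent.Lib.MP_8d00da_gt.h97t.FDefs

namespace Pool.Agent.Lib.MP_8d00da_gt.h25
end Pool.Agent.Lib.MP_8d00da_gt.h25
namespace Pool.Agent.Lib.MP_8d00da_gt.h42
end Pool.Agent.Lib.MP_8d00da_gt.h42
namespace Pool.Agent.Lib.MP_8d00da_gt.h42o
end Pool.Agent.Lib.MP_8d00da_gt.h42o
namespace Pool.Agent.Lib.MP_8d00da_gt.h97r
end Pool.Agent.Lib.MP_8d00da_gt.h97r
namespace Pool.Agent.Lib.MP_8d00da_gt.h97s
end Pool.Agent.Lib.MP_8d00da_gt.h97s


/-!
# The folding map and Lebesgue measure
-/

namespace Pool.Agent.Lib.MP_8d00da_gt.h97t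

open MeasureTheory Set Filter
open Pool.Agent.Lib.MP_8d00da_gt.h25 Pool.Agent.Lib.MP_8d00da_gt.h42
open Pool.Agent.Lib.MP_8d00da_gt.h42s Pool.Agent.Lib.MP_8d00da_gt.h42o
open Pool.Agent.Lib.MP_8d00da_gt.h97r Pool.Agent.Lib.MP_8d00da_gt.h97s
open scoped Topology NNReal ENNReal

set_option linter.unusedSectionVars false

variable {n : ℕ}

private theorem fm_abs_meas : Measurable fun t : ℝ => |t| := continuous_abs.measurable

private theorem fm_abs_map : Measure.map (fun t : ℝ => |t|) (volume : Measure ℝ) =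
    (2 : ℝ≥0∞) • (volume : Measure ℝ).restrict (Ici 0) := by
  refine Measure.ext fun s hs => ?_
  have hm : MeasurableSet ((fun t : ℝ => |t|) ⁻¹' s) := fm_abs_meas hs
  rw [Measure.map_apply fm_abs_meas hs, Measure.smul_apply, smul_eq_mul,
    Measure.restrict_apply hs, ← measure_inter_add_sdiff _ (measurableSet_Ici (a := (0:ℝ))), two_mul]
  have e1 : (fun t : ℝ => |t|) ⁻¹' s ∩ Ici 0 = s ∩ Ici 0 := by
    ext t
    constructor
    · rintro ⟨h1, h2⟩
      have h3 : |t| ∈ s := h1
      rw [abs_of_nonneg h2] at h3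
      exact ⟨h3, h2⟩
    · rintro ⟨h1, h2⟩
      refine ⟨?_, h2⟩
      show |t| ∈ s
      rw [abs_of_nonneg h2]
      exact h1
  have e2 : (fun t : ℝ => |t|) ⁻¹' s \ Ici 0 = Neg.neg ⁻¹' (s ∩ Ioi 0) := by
    ext t
    constructor
    · rintro ⟨h1, h2⟩
      have h4 : t < 0 := not_le.mp h2
      have h3 : |t| ∈ s := h1
      rw [abs_of_neg h4] at h3
      exact ⟨h3, neg_pos.mpr h4⟩
    · rintro ⟨h1, h2⟩
      have h4 : t < 0 := neg_pos.mp h2
      refine ⟨?_, not_le.mpr h4⟩
      show |t| ∈ s
      rw [abs_of_neg h4]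
      exact h1
  have e3 : volume (s ∩ Ioi (0:ℝ)) = volume (s ∩ Ici (0:ℝ)) := by
    refine measure_congr ?_
    exact (ae_eq_refl s).inter Ioi_ae_eq_Ici
  rw [e1, e2, (Measure.measurePreserving_neg (volume : Measure ℝ)).measure_preimage (hs.inter measurableSet_Ioi).nullMeasurableSet, e3]

theorem fold_cont (I : Finset (Fin n)) : Continuous (fold I) := by
  refine (PiLp.continuous_toLp 2 _).comp (continuous_pi fun i => ?_)
  by_cases hi : i ∈ I
  · simp only [hi, if_true]
    fun_prop
  · simp only [hi, if_false]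
    fun_prop

/-- `|a| - |b| ≤ |a - b|` in every coordinate. -/
theorem fold_lip (I : Finset (Fin n)) : LipschitzWith 1 (fold I) := by
  refine LipschitzWith.of_dist_le_mul fun x y => ?_
  rw [NNReal.coe_one, one_mul, EuclideanSpace.dist_eq, EuclideanSpace.dist_eq]
  refine Real.sqrt_le_sqrt (Finset.sum_le_sum fun i _ => ?_)
  have h : dist (fold I x i) (fold I y i) ≤ dist (x i) (y i) := by
    rw [fold_apply, fold_apply]
    by_cases hi : i ∈ I
    · rw [if_pos hi, if_pos hi, Real.dist_eq, Real.dist_eq]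
      exact abs_abs_sub_abs_le _ _
    · rw [if_neg hi, if_neg hi]
  exact pow_le_pow_left₀ dist_nonneg h 2

/-- One coordinate: `Measure.map (fun t => |t|) volume = 2 • volume.restrict (Ici 0)` on `ℝ` (and
`Measure.map id volume = volume`); then the product: the volume of `Vn n` is the product measure
(`EuclideanSpace.volume_preserving_symm_measurableEquiv_toLp` or the like) and
`MeasureTheory.Measure.pi_map_pi` (or `Measure.pi_eq`, testing on boxes) for the map which acts
coordinatewise. -/
theorem fold_map (I : Finset (Fin n)) :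
    Measure.map (fold I) (volume : Measure (Vn n)) =
      ((2 : ℝ≥0∞) ^ I.card) • (volume : Measure (Vn n)).restrict {x | ∀ i ∈ I, 0 ≤ x i} := by
  classical
  -- the map on the product
  set g : Fin n → ℝ → ℝ := fun i t => if i ∈ I then |t| else t with hg
  have hgm : ∀ i, Measurable (g i) := by
    intro i
    by_cases hi : i ∈ I
    · simp only [hg, hi, if_true]
      exact fm_abs_meas
    · simp only [hg, hi, if_false]
      exact measurable_id
  set T : Fin n → Set ℝ := fun i => if i ∈ I then Ici 0 else univ with hT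
  have hTm : ∀ i, MeasurableSet (T i) := by
    intro i
    by_cases hi : i ∈ I
    · simp only [hT, hi, if_true]
      exact measurableSet_Ici
    · simp only [hT, hi, if_false]
      exact MeasurableSet.univ
  set c : Fin n → ℝ≥0∞ := fun i => if i ∈ I then 2 else 1 with hc
  have hmap : ∀ i, Measure.map (g i) (volume : Measure ℝ) = c i • (volume : Measure ℝ).restrict (T i) := by
    intro i
    by_cases hi : i ∈ I
    · simp only [hg, hT, hc, hi, if_true]
      exact fm_abs_map
    · simp only [hg, hT, hc, hi, if_false]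
      rw [Measure.map_id', Measure.restrict_univ, one_smul]
  have hsf : ∀ i, SigmaFinite (Measure.map (g i) (volume : Measure ℝ)) := by
    intro i
    rw [hmap]
    have h2 : c i ≠ ⊤ := by
      by_cases hi : i ∈ I <;> simp [hc, hi]
    have h3 : c i • (volume : Measure ℝ).restrict (T i) =
        (c i).toNNReal • (volume : Measure ℝ).restrict (T i) := by
      conv_lhs => rw [← ENNReal.coe_toNNReal h2]
      rfl
    rw [h3]
    infer_instance
  have hpi : Measure.map (fun (x : Fin n → ℝ) i => g i (x i)) (volume : Measure (Fin n → ℝ)) =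
      ((2 : ℝ≥0∞) ^ I.card) • (volume : Measure (Fin n → ℝ)).restrict (Set.pi univ T) := by
    have h1 := Measure.pi_map_pi (μ := fun _ : Fin n => (volume : Measure ℝ)) (f := g)
      (fun i => (hgm i).aemeasurable)
    rw [← volume_pi] at h1
    rw [h1]
    refine Measure.pi_eq fun s hs => ?_
    rw [Measure.smul_apply, smul_eq_mul, Measure.restrict_apply (MeasurableSet.univ_pi hs),
      ← Set.pi_inter_distrib, volume_pi_pi]
    have h3 : ∀ i, Measure.map (g i) (volume : Measure ℝ) (s i) = c i * volume (s i ∩ T i) := by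
      intro i
      rw [hmap, Measure.smul_apply, smul_eq_mul, Measure.restrict_apply (hs i)]
    rw [Finset.prod_congr rfl fun i _ => h3 i, Finset.prod_mul_distrib]
    congr 1
    rw [hc, Finset.prod_ite, Finset.prod_const, Finset.prod_const_one, mul_one]
    congr 2
    ext i
    simp
  have hV : (volume : Measure (Vn n)) = Measure.map (WithLp.toLp 2) (volume : Measure (Fin n → ℝ)) :=
    (PiLp.volume_preserving_toLp (Fin n)).map_eq.symm
  have hto : Measurable (WithLp.toLp 2 : (Fin n → ℝ) → Vn n) :=
    (PiLp.volume_preserving_toLp (Fin n)).measurable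
  have hgM : Measurable (fun (x : Fin n → ℝ) i => g i (x i)) :=
    measurable_pi_lambda _ fun i => (hgm i).comp (measurable_pi_apply i)
  have hS : MeasurableSet {x : Vn n | ∀ i ∈ I, 0 ≤ x i} := by
    have e : {x : Vn n | ∀ i ∈ I, 0 ≤ x i} = ⋂ i ∈ I, {x : Vn n | 0 ≤ x i} := by
      ext x; simp
    rw [e]
    exact (isClosed_biInter fun i _ => isClosed_le continuous_const (by fun_prop)).measurableSet
  have hcomp : fold I ∘ (WithLp.toLp 2 : (Fin n → ℝ) → Vn n) =
      (WithLp.toLp 2 : (Fin n → ℝ) → Vn n) ∘ (fun (x : Fin n → ℝ) i => g i (x i)) := rfl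
  have hpre : (WithLp.toLp 2 : (Fin n → ℝ) → Vn n) ⁻¹' {x : Vn n | ∀ i ∈ I, 0 ≤ x i} =
      Set.pi univ T := by
    ext x
    simp only [Set.mem_preimage, Set.mem_ofPred_eq, Set.mem_pi, Set.mem_univ, true_imp_iff]
    constructor
    · intro h i
      by_cases hi : i ∈ I
      · simp only [hT, hi, if_true]
        exact h i hi
      · simp only [hT, hi, if_false]
        exact Set.mem_univ _
    · intro h i hi
      have := h i
      simp only [hT, hi, if_true] at this
      exact this
  conv_lhs => rw [hV]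
  rw [Measure.map_map (fold_cont I).measurable hto, hcomp, ← Measure.map_map hto hgM, hpi,
    Measure.map_smul, ← hpre, ← Measure.restrict_map hto hS, ← hV]

end Pool.Agent.Lib.MP_8d00da_gt.h97t
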