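import Mathlib
import Pool.Agent.Lib.MP_8d00da_gt.h97t.FMeas
import Pool.Agent.Lib.MP_8d00da_gt.h97t.FDens

/-!
# The unfolded measure
-/

namespace Pool.Agent.Lib.MP_8d00da_gt.h97t

open MeasureTheory Set Filter
open Pool.Agent.Lib.MP_8d00da_gt.h25 Pool.Agent.Lib.MP_8d00da_gt.h42
open Pool.Agent.Lib.MP_8d00da_gt.h42s Pool.Agent.Lib.MP_8d00da_gt.h42o
open Pool.Agent.Lib.MP_8d00da_gt.h97r Pool.Agent.Lib.MP_8d00da_gt.h97s
open scoped Topology NNReal ENNReal

set_option linter.unusedSectionVars false

variable {n : ℕ}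

variable {I : Finset (Fin n)} {h : Vn n → ℝ}

/-- `fold_map`, and `h` vanishes off the orthant:
`map (fold I) (withDensity (c • h ∘ fold I)) = withDensity (c • h) (map (fold I) volume)`. -/
theorem unf_map (h0 : ∀ x, 0 ≤ h x) (hm : Measurable h) (hM : Mono I h) :
    Measure.map (fold I) (volume.withDensity fun x => ENNReal.ofReal (unf I h x)) =
      volume.withDensity fun x => ENNReal.ofReal (h x) := by
  have hf : Measurable (fold I) := (fold_cont I).measurable
  have hu : Measurable fun x => ENNReal.ofReal (unf I h x) := (unf_meas hm).ennreal_ofReal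
  have hh : Measurable fun x => ENNReal.ofReal (h x) := hm.ennreal_ofReal
  have hO : MeasurableSet {x : Vn n | ∀ i ∈ I, 0 ≤ x i} := by
    have e : {x : Vn n | ∀ i ∈ I, 0 ≤ x i} = ⋂ i ∈ I, {x : Vn n | 0 ≤ x i} := by
      ext x
      simp
    rw [e]
    refine Finset.measurableSet_biInter I fun i _ => ?_
    exact (isClosed_le continuous_const (by fun_prop)).measurableSet
  have hc2 : (2 : ℝ≥0∞) ^ I.card * ENNReal.ofReal ((2 : ℝ)⁻¹ ^ I.card) = 1 := by
    rw [ENNReal.ofReal_pow (by norm_num), ENNReal.ofReal_inv_of_pos (by norm_num), ← mul_pow,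
      ENNReal.ofReal_ofNat, ENNReal.mul_inv_cancel (by norm_num) (by norm_num), one_pow]
  refine Measure.ext_of_lintegral _ fun f hfm => ?_
  have hg : Measurable fun y => ENNReal.ofReal ((2 : ℝ)⁻¹ ^ I.card * h y) * f y :=
    ((hm.const_mul _).ennreal_ofReal).mul hfm
  have e0 := lintegral_withDensity_eq_lintegral_mul volume hu (g := fun x => f (fold I x)) (hfm.comp hf)
  rw [lintegral_map hfm hf, e0, lintegral_withDensity_eq_lintegral_mul _ hh hfm]
  have e1 : ∫⁻ x, ((fun x => ENNReal.ofReal (unf I h x)) * fun x => f (fold I x)) x =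
      ∫⁻ y, ENNReal.ofReal ((2 : ℝ)⁻¹ ^ I.card * h y) * f y ∂(Measure.map (fold I) volume) := by
    rw [lintegral_map hg hf]
    rfl
  have e2 : ∫⁻ y, ((fun x => ENNReal.ofReal (h x)) * f) y =
      ∫⁻ y in {x : Vn n | ∀ i ∈ I, 0 ≤ x i}, ENNReal.ofReal (h y) * f y := by
    rw [← lintegral_indicator hO]
    refine lintegral_congr fun y => ?_
    by_cases hy : y ∈ {x : Vn n | ∀ i ∈ I, 0 ≤ x i}
    · rw [indicator_of_mem hy]
      rfl
    · rw [indicator_of_notMem hy]
      have hy' : ∃ i ∈ I, y i < 0 := by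
        by_contra hcon
        push Not at hcon
        exact hy hcon
      show ENNReal.ofReal (h y) * f y = 0
      rw [hM.supp y hy', ENNReal.ofReal_zero, zero_mul]
  rw [e1, e2, fold_map, lintegral_smul_measure, smul_eq_mul, ← lintegral_const_mul _ hg]
  refine lintegral_congr fun y => ?_
  rw [ENNReal.ofReal_mul (by positivity), ← mul_assoc, ← mul_assoc, hc2, one_mul]

theorem unf_prob (h0 : ∀ x, 0 ≤ h x) (hm : Measurable h) (hM : Mono I h)
    [IsProbabilityMeasure ((volume : Measure (Vn n)).withDensity fun x => ENNReal.ofReal (h x))] :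
    IsProbabilityMeasure
      ((volume : Measure (Vn n)).withDensity fun x => ENNReal.ofReal (unf I h x)) := by
  have hf : Measurable (fold I) := (fold_cont I).measurable
  have h1 := unf_map h0 hm hM
  constructor
  have h2 : Measure.map (fold I) (volume.withDensity fun x => ENNReal.ofReal (unf I h x)) univ = 1 := by
    rw [h1]
    exact measure_univ
  rwa [Measure.map_apply hf MeasurableSet.univ, preimage_univ] at h2

/-- Integrals of functions of the folded variable. -/
theorem unf_int (h0 : ∀ x, 0 ≤ h x) (hm : Measurable h) (hM : Mono I h) {φ : Vn n → ℝ}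
    (hφ : Measurable φ) : ∫ x, φ (fold I x) * unf I h x = ∫ x, φ x * h x := by
  have hf : Measurable (fold I) := (fold_cont I).measurable
  have hu : Measurable fun x => ENNReal.ofReal (unf I h x) := (unf_meas hm).ennreal_ofReal
  have hh : Measurable fun x => ENNReal.ofReal (h x) := hm.ennreal_ofReal
  have e1 : ∫ x, φ (fold I x) * unf I h x =
      ∫ x, φ (fold I x) ∂(volume.withDensity fun x => ENNReal.ofReal (unf I h x)) := by
    rw [integral_withDensity_eq_integral_toReal_smul hu
      (Eventually.of_forall fun _ => ENNReal.ofReal_lt_top)]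
    refine integral_congr_ae (Eventually.of_forall fun x => ?_)
    show φ (fold I x) * unf I h x = (ENNReal.ofReal (unf I h x)).toReal * φ (fold I x)
    rw [ENNReal.toReal_ofReal (unf_nonneg h0 x), mul_comm]
  have e2 : ∫ x, φ x * h x = ∫ x, φ x ∂(volume.withDensity fun x => ENNReal.ofReal (h x)) := by
    rw [integral_withDensity_eq_integral_toReal_smul hh
      (Eventually.of_forall fun _ => ENNReal.ofReal_lt_top)]
    refine integral_congr_ae (Eventually.of_forall fun x => ?_)
    show φ x * h x = (ENNReal.ofReal (h x)).toReal * φ x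
    rw [ENNReal.toReal_ofReal (h0 x), mul_comm]
  rw [e1, e2, ← unf_map h0 hm hM, integral_map hf.aemeasurable hφ.aestronglyMeasurable]

end Pool.Agent.Lib.MP_8d00da_gt.h97t
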