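import Mathlib
import Pool.Agent.Lib.MP_8d00da_gt.h97t.FMom
import Pool.Agent.Lib.MP_8d00da_gt.h97t.FPush
import Pool.Agent.Lib.MP_8d00da_gt.h97r.RGen

/-!
# Linear functions
-/

namespace Pool.Agent.Lib.MP_8d00da_gt.h97t

open MeasureTheory Set Filter
open Pool.Agent.Lib.MP_8d00da_gt.h25 Pool.Agent.Lib.MP_8d00da_gt.h42
open Pool.Agent.Lib.MP_8d00da_gt.h42s Pool.Agent.Lib.MP_8d00da_gt.h42o
open Pool.Agent.Lib.MP_8d00da_gt.h97r Pool.Agent.Lib.MP_8d00da_gt.h97s
open scoped Topology NNReal ENNReal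

set_option linter.unusedSectionVars false

variable {n : ℕ}

variable {I : Finset (Fin n)} {h : Vn n → ℝ}

/-- The coordinates in `S`. -/
private noncomputable def cut (S : Finset (Fin n)) (θ : Vn n) : Vn n :=
  WithLp.toLp 2 fun i => if i ∈ S then θ i else 0

private lemma inner_cut (S : Finset (Fin n)) (θ x : Vn n) :
    inner ℝ (cut S θ) x = ∑ i ∈ S, θ i * x i := by
  rw [PiLp.inner_apply]
  have h1 : ∀ i, inner ℝ ((cut S θ) i) (x i) = if i ∈ S then θ i * x i else 0 := by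
    intro i
    show inner ℝ (if i ∈ S then θ i else 0 : ℝ) (x i) = _
    split_ifs
    · simp [mul_comm]
    · simp
  simp only [h1]
  rw [Finset.sum_ite_mem, Finset.univ_inter]

private lemma norm_cut (S : Finset (Fin n)) (θ : Vn n) : ‖cut S θ‖ ^ 2 = ∑ i ∈ S, (θ i) ^ 2 := by
  rw [EuclideanSpace.norm_sq_eq]
  have h1 : ∀ i, ‖(cut S θ) i‖ ^ 2 = if i ∈ S then (θ i) ^ 2 else 0 := by
    intro i
    show ‖(if i ∈ S then θ i else 0 : ℝ)‖ ^ 2 = _
    split_ifs
    · rw [Real.norm_eq_abs, sq_abs]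
    · simp
  simp only [h1]
  rw [Finset.sum_ite_mem, Finset.univ_inter]

private lemma inner_split (I : Finset (Fin n)) (θ x : Vn n) :
    inner ℝ θ x = (∑ i ∈ I, θ i * x i) + ∑ l ∈ Iᶜ, θ l * x l := by
  rw [Finset.sum_add_sum_compl, PiLp.inner_apply]
  exact Finset.sum_congr rfl fun i _ => by simp [mul_comm]

private lemma norm_split (I : Finset (Fin n)) (θ : Vn n) :
    ‖θ‖ ^ 2 = (∑ i ∈ I, (θ i) ^ 2) + ∑ l ∈ Iᶜ, (θ l) ^ 2 := by
  rw [Finset.sum_add_sum_compl, EuclideanSpace.norm_sq_eq]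
  exact Finset.sum_congr rfl fun i _ => by rw [Real.norm_eq_abs, sq_abs]

private lemma coord_inner (i : Fin n) (x : Vn n) : x i = inner ℝ (ee i) x := by
  unfold ee
  rw [EuclideanSpace.inner_single_left]
  simp

private lemma unf_fl {i : Fin n} (hi : i ∈ I) (x : Vn n) : unf I h (fl i x) = unf I h x := by
  have h1 : fold I (fl i x) = fold I x := by
    ext j
    rw [fold_apply, fold_apply]
    by_cases hj : j ∈ I
    · rw [if_pos hj, if_pos hj, fl_apply]
      split_ifs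
      · rw [abs_neg]
      · rfl
    · rw [if_neg hj, if_neg hj, fl_apply, if_neg]
      rintro rfl
      exact hj hi
  unfold unf
  rw [h1]

private lemma int_fl {i : Fin n} (hi : i ∈ I) (φ : Vn n → ℝ) :
    ∫ x, φ (fl i x) * unf I h x = ∫ x, φ x * unf I h x := by
  have h1 := (fl i).measurePreserving.integral_comp (fl i).toHomeomorph.measurableEmbedding
    (fun x => φ x * unf I h x)
  rw [← h1]
  refine integral_congr_ae (Eventually.of_forall fun x => ?_)
  simp only [unf_fl hi]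

private lemma int_odd {i : Fin n} (hi : i ∈ I) {φ : Vn n → ℝ} (hφ : ∀ x, φ (fl i x) = -φ x) :
    ∫ x, φ x * unf I h x = 0 := by
  have h1 := int_fl (h := h) hi φ
  simp only [hφ, neg_mul] at h1
  rw [integral_neg] at h1
  linarith

private lemma unf_facts (h0 : ∀ x, 0 ≤ h x) (hm : Measurable h) (hlc : LogConc h) (hM : Mono I h)
    (hmass : ∫ x, h x = 1) : Integrable (unf I h) ∧ (Integrable fun x => ‖x‖ ^ 2 * unf I h x) := by
  have h1 := unf_int h0 hm hM (φ := fun _ => 1) measurable_const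
  simp only [one_mul] at h1
  have hpos : 0 < ∫ x, unf I h x := by
    rw [h1, hmass]
    exact one_pos
  have hi : Integrable (unf I h) := by
    by_contra hc
    rw [integral_undef hc] at hpos
    exact lt_irrefl _ hpos
  exact ⟨hi, second_moment (unf_nonneg h0) (unf_meas hm) (unf_lc h0 hM hlc) hi hpos⟩

private lemma int_two {g : Vn n → ℝ} (hg0 : ∀ x, 0 ≤ g x) (hgm : Measurable g)
    (hi2 : Integrable fun x => ‖x‖ ^ 2 * g x) (u w : Vn n) :
    Integrable fun x => (inner ℝ u x * inner ℝ w x) * g x := by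
  refine (hi2.const_mul (‖u‖ * ‖w‖)).mono' (((by fun_prop : Measurable fun x : Vn n =>
    inner ℝ u x * inner ℝ w x)).mul hgm).aestronglyMeasurable (Eventually.of_forall fun x => ?_)
  rw [Real.norm_eq_abs, abs_mul, abs_of_nonneg (hg0 x), abs_mul, ← mul_assoc]
  refine mul_le_mul_of_nonneg_right ?_ (hg0 x)
  calc |inner ℝ u x| * |inner ℝ w x| ≤ (‖u‖ * ‖x‖) * (‖w‖ * ‖x‖) :=
        mul_le_mul (abs_real_inner_le_norm _ _) (abs_real_inner_le_norm _ _) (abs_nonneg _)
          (by positivity)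
    _ = _ := by ring

private lemma int_one {g : Vn n → ℝ} (hg0 : ∀ x, 0 ≤ g x) (hgm : Measurable g) (hi : Integrable g)
    (hi2 : Integrable fun x => ‖x‖ ^ 2 * g x) (u : Vn n) :
    Integrable fun x => inner ℝ u x * g x := by
  refine ((hi.add hi2).const_mul ‖u‖).mono'
    ((by fun_prop : Measurable fun x : Vn n => inner ℝ u x).mul hgm).aestronglyMeasurable
    (Eventually.of_forall fun x => ?_)
  rw [Real.norm_eq_abs, abs_mul, abs_of_nonneg (hg0 x)]
  have h1 := abs_real_inner_le_norm u x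
  have h2 : ‖x‖ ≤ 1 + ‖x‖ ^ 2 := by nlinarith [sq_nonneg (‖x‖ - 1), norm_nonneg x]
  have h3 := mul_le_mul_of_nonneg_right (h1.trans (mul_le_mul_of_nonneg_left h2 (norm_nonneg u)))
    (hg0 x)
  refine h3.trans (le_of_eq ?_)
  simp only [Pi.add_apply]
  ring

/-- The second moments of the unfolded density: with `θ = θ' + θ''` (coordinates in `I` and not in
`I`) the sign changes give `∫ ⟨θ, x⟩² unf = ∑ i ∈ I, θ i ² ∫ x i ² h + ∫ ⟨θ'', x⟩² h` and
`∫ ⟨θ, x⟩ unf = ∫ ⟨θ'', x⟩ h`. -/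
theorem unf_second (h0 : ∀ x, 0 ≤ h x) (hm : Measurable h) (hlc : LogConc h) (hM : Mono I h)
    (hmass : ∫ x, h x = 1) (θ : Vn n) :
    (∫ x, (inner ℝ θ x) ^ 2 * unf I h x) - (∫ x, inner ℝ θ x * unf I h x) ^ 2 =
      (∑ i ∈ I, (θ i) ^ 2 * ∫ x : Vn n, (x i) ^ 2 * h x) +
      ((∫ x, (∑ l ∈ Iᶜ, θ l * x l) ^ 2 * h x) - (∫ x, (∑ l ∈ Iᶜ, θ l * x l) * h x) ^ 2) := by
  obtain ⟨hi, hi2⟩ := unf_facts h0 hm hlc hM hmass
  have hg0 : ∀ x, 0 ≤ unf I h x := unf_nonneg h0
  have hgm : Measurable (unf I h) := unf_meas hm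
  obtain ⟨u, hu⟩ : ∃ u, u = cut I θ := ⟨_, rfl⟩
  obtain ⟨w, hw⟩ : ∃ w, w = cut Iᶜ θ := ⟨_, rfl⟩
  have eu : ∀ x, inner ℝ u x = ∑ i ∈ I, θ i * x i := fun x => by rw [hu, inner_cut]
  have ew : ∀ x, inner ℝ w x = ∑ l ∈ Iᶜ, θ l * x l := fun x => by rw [hw, inner_cut]
  have eθ : ∀ x, inner ℝ θ x = inner ℝ u x + inner ℝ w x := fun x => by
    rw [eu, ew, ← inner_split]
  have huw := int_two hg0 hgm hi2 u w
  have huu := int_two hg0 hgm hi2 u u
  have hww := int_two hg0 hgm hi2 w w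
  have hu1 := int_one hg0 hgm hi hi2 u
  have hw1 := int_one hg0 hgm hi hi2 w
  have flw : ∀ i ∈ I, ∀ x, inner ℝ w (fl i x) = inner ℝ w x := by
    intro i hi x
    rw [ew, ew]
    refine Finset.sum_congr rfl fun l hl => ?_
    rw [fl_apply, if_neg]
    rintro rfl
    exact (Finset.mem_compl.1 hl) hi
  -- cross terms
  have c0 : ∫ x, (inner ℝ u x * inner ℝ w x) * unf I h x = 0 := by
    have e1 : ∀ x : Vn n, (inner ℝ u x * inner ℝ w x) * unf I h x =
        ∑ i ∈ I, (θ i * x i * inner ℝ w x) * unf I h x := by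
      intro x
      rw [eu, Finset.sum_mul, Finset.sum_mul]
    have e2 : ∀ i, Integrable fun x : Vn n => (θ i * x i * inner ℝ w x) * unf I h x := by
      intro i
      refine ((int_two hg0 hgm hi2 (ee i) w).const_mul (θ i)).congr
        (Eventually.of_forall fun x => ?_)
      simp only
      rw [← coord_inner]
      ring
    simp only [e1]
    rw [integral_finsetSum _ fun i _ => e2 i]
    refine Finset.sum_eq_zero fun i hiI => ?_
    refine int_odd hiI fun x => ?_
    simp only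
    rw [flw i hiI, fl_apply, if_pos rfl]
    ring
  have c1 : ∫ x, inner ℝ u x * unf I h x = 0 := by
    have e1 : ∀ x : Vn n, inner ℝ u x * unf I h x = ∑ i ∈ I, (θ i * x i) * unf I h x := by
      intro x
      rw [eu, Finset.sum_mul]
    have e2 : ∀ i, Integrable fun x : Vn n => (θ i * x i) * unf I h x := by
      intro i
      refine ((int_one hg0 hgm hi hi2 (ee i)).const_mul (θ i)).congr
        (Eventually.of_forall fun x => ?_)
      simp only
      rw [← coord_inner]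
      ring
    simp only [e1]
    rw [integral_finsetSum _ fun i _ => e2 i]
    refine Finset.sum_eq_zero fun i hiI => ?_
    refine int_odd hiI fun x => ?_
    simp only
    rw [fl_apply, if_pos rfl]
    ring
  have c2 : ∫ x, (inner ℝ u x * inner ℝ u x) * unf I h x =
      ∑ i ∈ I, (θ i) ^ 2 * ∫ x : Vn n, (x i) ^ 2 * h x := by
    have e1 : ∀ x : Vn n, (inner ℝ u x * inner ℝ u x) * unf I h x =
        ∑ i ∈ I, ∑ j ∈ I, (θ i * x i * (θ j * x j)) * unf I h x := by
      intro x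
      rw [eu, Finset.sum_mul_sum, Finset.sum_mul]
      refine Finset.sum_congr rfl fun i _ => ?_
      rw [Finset.sum_mul]
    have e2 : ∀ i j, Integrable fun x : Vn n => (θ i * x i * (θ j * x j)) * unf I h x := by
      intro i j
      refine ((int_two hg0 hgm hi2 (ee i) (ee j)).const_mul (θ i * θ j)).congr
        (Eventually.of_forall fun x => ?_)
      simp only
      rw [← coord_inner, ← coord_inner]
      ring
    simp only [e1]
    rw [integral_finsetSum _ fun i _ => integrable_finsetSum _ fun j _ => e2 i j]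
    refine Finset.sum_congr rfl fun i hiI => ?_
    rw [integral_finsetSum _ fun j _ => e2 i j]
    rw [Finset.sum_eq_single_of_mem i hiI]
    · have e3 := unf_int h0 hm hM (φ := fun x : Vn n => (x i) ^ 2) (by fun_prop)
      have e4 : ∀ x : Vn n, (fold I x i) ^ 2 = (x i) ^ 2 := fun x => by
        rw [fold_apply, if_pos hiI, sq_abs]
      simp only [e4] at e3
      rw [← e3, ← integral_const_mul]
      refine integral_congr_ae (Eventually.of_forall fun x => ?_)
      simp only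
      ring
    · intro j _ hji
      refine int_odd hiI fun x => ?_
      simp only
      rw [fl_apply, fl_apply, if_pos rfl, if_neg hji]
      ring
  have hfw : ∀ x : Vn n, ∑ l ∈ Iᶜ, θ l * fold I x l = ∑ l ∈ Iᶜ, θ l * x l := by
    intro x
    refine Finset.sum_congr rfl fun l hl => ?_
    rw [fold_apply, if_neg (Finset.mem_compl.1 hl)]
  have c3 : ∫ x, (inner ℝ w x * inner ℝ w x) * unf I h x =
      ∫ x : Vn n, (∑ l ∈ Iᶜ, θ l * x l) ^ 2 * h x := by
    have e3 := unf_int h0 hm hM (φ := fun x : Vn n => (∑ l ∈ Iᶜ, θ l * x l) ^ 2) (by fun_prop)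
    simp only [hfw] at e3
    rw [← e3]
    refine integral_congr_ae (Eventually.of_forall fun x => ?_)
    simp only
    rw [ew]
    ring
  have c4 : ∫ x, inner ℝ w x * unf I h x = ∫ x : Vn n, (∑ l ∈ Iᶜ, θ l * x l) * h x := by
    have e3 := unf_int h0 hm hM (φ := fun x : Vn n => ∑ l ∈ Iᶜ, θ l * x l) (by fun_prop)
    simp only [hfw] at e3
    rw [← e3]
    refine integral_congr_ae (Eventually.of_forall fun x => ?_)
    simp only
    rw [ew]
  have t1 : ∫ x, (inner ℝ θ x) ^ 2 * unf I h x =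
      (∑ i ∈ I, (θ i) ^ 2 * ∫ x : Vn n, (x i) ^ 2 * h x) +
      ∫ x : Vn n, (∑ l ∈ Iᶜ, θ l * x l) ^ 2 * h x := by
    have e1 : ∀ x : Vn n, (inner ℝ θ x) ^ 2 * unf I h x =
        ((inner ℝ u x * inner ℝ u x) * unf I h x + 2 * ((inner ℝ u x * inner ℝ w x) * unf I h x)) +
        (inner ℝ w x * inner ℝ w x) * unf I h x := by
      intro x
      rw [eθ]
      ring
    simp only [e1]
    have i1 : Integrable fun x : Vn n => (inner ℝ u x * inner ℝ u x) * unf I h x +
        2 * ((inner ℝ u x * inner ℝ w x) * unf I h x) := huu.add (huw.const_mul 2)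
    rw [integral_add i1 hww, integral_add huu (huw.const_mul 2), integral_const_mul, c0, c2, c3,
      mul_zero, add_zero]
  have t2 : ∫ x, inner ℝ θ x * unf I h x = ∫ x : Vn n, (∑ l ∈ Iᶜ, θ l * x l) * h x := by
    have e1 : ∀ x : Vn n, inner ℝ θ x * unf I h x = inner ℝ u x * unf I h x +
        inner ℝ w x * unf I h x := by
      intro x
      rw [eθ]
      ring
    simp only [e1]
    rw [integral_add hu1 hw1, c1, c4, zero_add]
  rw [t1, t2]
  ring

/-- `mono_mom`: `∫ x i ² h ≤ 4 (∫ x i ² h - (∫ x i h) ²) ≤ 4 D ²`, and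
`Var (∑ l ∉ I, θ l x l) ≤ D ² ∑ l ∉ I, θ l ²`; the sum is at most `(2 D ‖θ‖) ²`. -/
theorem unf_var (h0 : ∀ x, 0 ≤ h x) (hm : Measurable h) (hlc : LogConc h) (hM : Mono I h)
    (hmass : ∫ x, h x = 1) {D : ℝ}
    (hD : ∀ θ : Vn n, (∫ x, (inner ℝ θ x) ^ 2 * h x) - (∫ x, inner ℝ θ x * h x) ^ 2 ≤
      D ^ 2 * ‖θ‖ ^ 2) (θ : Vn n) :
    (∫ x, (inner ℝ θ x) ^ 2 * unf I h x) - (∫ x, inner ℝ θ x * unf I h x) ^ 2 ≤
      (2 * D) ^ 2 * ‖θ‖ ^ 2 := by
  rw [unf_second h0 hm hlc hM hmass θ]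
  have hpos : 0 < ∫ x, h x := by
    rw [hmass]
    exact one_pos
  have hi : Integrable h := by
    by_contra hc
    rw [integral_undef hc] at hpos
    exact lt_irrefl _ hpos
  have hi2 := second_moment h0 hm hlc hi hpos
  have k1 : ∀ i ∈ I, ∫ x : Vn n, (x i) ^ 2 * h x ≤ 4 * D ^ 2 := by
    intro i hiI
    have j1 : Integrable fun x : Vn n => x i * h x := by
      refine (int_one h0 hm hi hi2 (ee i)).congr (Eventually.of_forall fun x => ?_)
      simp only
      rw [← coord_inner]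
    have j2 : Integrable fun x : Vn n => (x i) ^ 2 * h x := by
      refine (int_two h0 hm hi2 (ee i) (ee i)).congr (Eventually.of_forall fun x => ?_)
      simp only
      rw [← coord_inner]
      ring
    have h1 := mono_mom h0 hm hM hi hiI j1 j2
    rw [hmass, mul_one] at h1
    have h2 := hD (ee i)
    simp only [← coord_inner] at h2
    have h3 : ‖(ee i : Vn n)‖ = 1 := by
      unfold ee
      rw [EuclideanSpace.norm_single]
      simp
    rw [h3] at h2
    linarith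
  have k2 : (∑ i ∈ I, (θ i) ^ 2 * ∫ x : Vn n, (x i) ^ 2 * h x) ≤ 4 * D ^ 2 * ∑ i ∈ I, (θ i) ^ 2 := by
    rw [Finset.mul_sum]
    refine Finset.sum_le_sum fun i hiI => ?_
    rw [mul_comm (4 * D ^ 2)]
    exact mul_le_mul_of_nonneg_left (k1 i hiI) (sq_nonneg _)
  have k3 := hD (cut Iᶜ θ)
  simp only [inner_cut, norm_cut] at k3
  have k4 : 0 ≤ D ^ 2 * ∑ l ∈ Iᶜ, (θ l) ^ 2 :=
    mul_nonneg (sq_nonneg _) (Finset.sum_nonneg fun _ _ => sq_nonneg _)
  rw [norm_split I θ]
  have e : (2 * D) ^ 2 * ((∑ i ∈ I, (θ i) ^ 2) + ∑ l ∈ Iᶜ, (θ l) ^ 2) =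
      4 * D ^ 2 * (∑ i ∈ I, (θ i) ^ 2) + 4 * (D ^ 2 * ∑ l ∈ Iᶜ, (θ l) ^ 2) := by ring
  rw [e]
  linarith

end Pool.Agent.Lib.MP_8d00da_gt.h97t
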