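import Mathlib
import Pool.Agent.Lib.MP_8d00da_gt.h97t.FDer
import Pool.Agent.Lib.MP_8d00da_gt.h97t.FLin
import Pool.Agent.Lib.MP_8d00da_gt.h97s.KMain

/-!
# Main theorem for monotone densities
-/

namespace Pool.Agent.Lib.MP_8d00da_gt.h97t

open MeasureTheory Set Filter
open Pool.Agent.Lib.MP_8d00da_gt.h25 Pool.Agent.Lib.MP_8d00da_gt.h42
open Pool.Agent.Lib.MP_8d00da_gt.h42s Pool.Agent.Lib.MP_8d00da_gt.h42o
open Pool.Agent.Lib.MP_8d00da_gt.h97r Pool.Agent.Lib.MP_8d00da_gt.h97s
open scoped Topology NNReal ENNReal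

set_option linter.unusedSectionVars false

variable {n : ℕ}

variable {I : Finset (Fin n)} {h : Vn n → ℝ}

private lemma fm_int (h0 : ∀ x, 0 ≤ h x) (hm : Measurable h) (hlc : LogConc h)
    {μ : Measure (Vn n)} (hμ : μ = volume.withDensity fun x => ENNReal.ofReal (h x))
    [IsProbabilityMeasure μ] : Integrable h ∧ ∫ x, h x = 1 ∧
      (∀ θ : Vn n, Integrable fun x => (inner ℝ θ x) ^ 2 * h x) ∧
      ∀ θ : Vn n, Integrable fun x => inner ℝ θ x * h x := by
  have hi : Integrable h := by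
    have h1 : Integrable (fun _ : Vn n => (1 : ℝ)) μ := integrable_const 1
    rw [integrable_mu h0 hm hμ] at h1
    simpa using h1
  have hI1 : ∫ x, h x = 1 := by
    have h1 := integral_mu h0 hm hμ fun _ => 1
    simp only [one_mul, integral_const, probReal_univ, smul_eq_mul, mul_one] at h1
    exact h1.symm
  have hpos : 0 < ∫ x, h x := by
    rw [hI1]
    exact one_pos
  have hi2 := second_moment h0 hm hlc hi hpos
  refine ⟨hi, hI1, fun θ => ?_, fun θ => ?_⟩
  · refine (hi2.const_mul (‖θ‖ ^ 2)).mono'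
      (((by fun_prop : Measurable fun x : Vn n => inner ℝ θ x).pow_const 2).mul hm).aestronglyMeasurable
      (Eventually.of_forall fun x => ?_)
    rw [Real.norm_eq_abs, abs_of_nonneg (mul_nonneg (sq_nonneg _) (h0 x)), ← mul_assoc]
    refine mul_le_mul_of_nonneg_right ?_ (h0 x)
    rw [← mul_pow, ← sq_abs (inner ℝ θ x)]
    exact pow_le_pow_left₀ (abs_nonneg _) (abs_real_inner_le_norm θ x) 2
  · refine ((hi.add hi2).const_mul ‖θ‖).mono'
      ((by fun_prop : Measurable fun x : Vn n => inner ℝ θ x).mul hm).aestronglyMeasurable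
      (Eventually.of_forall fun x => ?_)
    rw [Real.norm_eq_abs, abs_mul, abs_of_nonneg (h0 x)]
    have h1 := abs_real_inner_le_norm θ x
    have h2 : ‖x‖ ≤ 1 + ‖x‖ ^ 2 := by nlinarith [sq_nonneg (‖x‖ - 1), norm_nonneg x]
    have h3 := mul_le_mul_of_nonneg_right (h1.trans (mul_le_mul_of_nonneg_left h2 (norm_nonneg θ)))
      (h0 x)
    refine h3.trans (le_of_eq ?_)
    simp only [Pi.add_apply]
    ring

/-- Translate `LinPoincareWith` into the inequality for variances (compare `h97r/RFin.lean`). -/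
theorem lin_iff (h0 : ∀ x, 0 ≤ h x) (hm : Measurable h) (hlc : LogConc h) {μ : Measure (Vn n)}
    (hμ : μ = volume.withDensity fun x => ENNReal.ofReal (h x)) [IsProbabilityMeasure μ] {D : ℝ}
    (hD : 0 ≤ D) :
    LinPoincareWith μ D ↔ ∀ θ : Vn n, (∫ x, (inner ℝ θ x) ^ 2 * h x) -
      (∫ x, inner ℝ θ x * h x) ^ 2 ≤ D ^ 2 * ‖θ‖ ^ 2 := by
  obtain ⟨hi, hI1, hi2, hi1⟩ := fm_int h0 hm hlc hμ
  have hIm : ∀ g : Vn n → ℝ, ∫ x, g x ∂μ = ∫ x, g x * h x := integral_mu h0 hm hμ
  have hii : ∀ {g : Vn n → ℝ}, Integrable g μ ↔ Integrable fun x => g x * h x :=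
    integrable_mu h0 hm hμ
  have key : ∀ θ : Vn n, eLpNorm (fun x => inner ℝ θ x - ∫ y, inner ℝ θ y ∂μ) 2 μ ≤
      ENNReal.ofReal (D * ‖θ‖) ↔ (∫ x, (inner ℝ θ x) ^ 2 * h x) -
      (∫ x, inner ℝ θ x * h x) ^ 2 ≤ D ^ 2 * ‖θ‖ ^ 2 := by
    intro θ
    obtain ⟨c, hc⟩ : ∃ c : ℝ, c = ∫ y, inner ℝ θ y ∂μ := ⟨_, rfl⟩
    rw [← hc]
    rw [hIm] at hc
    have hmeas : Measurable fun x : Vn n => (inner ℝ θ x : ℝ) - c := by fun_prop
    have e1 : ∀ x : Vn n, ((inner ℝ θ x : ℝ) - c) ^ 2 * h x =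
        ((inner ℝ θ x) ^ 2 * h x - (2 * c) * (inner ℝ θ x * h x)) + c ^ 2 * h x := fun x => by ring
    have i1 : Integrable fun x : Vn n => (inner ℝ θ x) ^ 2 * h x - (2 * c) * (inner ℝ θ x * h x) :=
      (hi2 θ).sub ((hi1 θ).const_mul _)
    have hsq : Integrable (fun x : Vn n => ((inner ℝ θ x : ℝ) - c) ^ 2) μ := by
      rw [hii]
      simp only [e1]
      exact i1.add (hi.const_mul _)
    have e2 : ∫ x, ((inner ℝ θ x : ℝ) - c) ^ 2 ∂μ = (∫ x, (inner ℝ θ x) ^ 2 * h x) -
        (∫ x, inner ℝ θ x * h x) ^ 2 := by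
      rw [hIm]
      simp only [e1]
      rw [integral_add i1 (hi.const_mul _), integral_sub (hi2 θ) ((hi1 θ).const_mul _),
        integral_const_mul, integral_const_mul, hI1, ← hc]
      ring
    have hml : MemLp (fun x : Vn n => (inner ℝ θ x : ℝ) - c) 2 μ :=
      (memLp_two_iff_integrable_sq hmeas.aestronglyMeasurable).2 hsq
    have e3 : eLpNorm (fun x : Vn n => (inner ℝ θ x : ℝ) - c) 2 μ =
        ENNReal.ofReal (√(∫ x, ((inner ℝ θ x : ℝ) - c) ^ 2 ∂μ)) := by
      rw [hml.eLpNorm_eq_integral_rpow_norm two_ne_zero ENNReal.ofNat_ne_top]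
      congr 1
      rw [Real.sqrt_eq_rpow]
      simp only [ENNReal.toReal_ofNat, Real.rpow_two, Real.norm_eq_abs, sq_abs, one_div]
    rw [e3, ENNReal.ofReal_le_ofReal_iff (by positivity), Real.sqrt_le_left (by positivity), e2,
      mul_pow]
  constructor
  · intro H θ
    refine (key θ).1 ?_
    have h1 := H (innerSL ℝ θ)
    simp only [innerSL_apply_apply, innerSL_apply_norm] at h1
    exact h1
  · intro H l
    have h1 := (key ((InnerProductSpace.toDual ℝ (Vn n)).symm l)).2 (H _)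
    simp only [InnerProductSpace.toDual_symm_apply, LinearIsometryEquiv.norm_map] at h1
    exact h1

/-- `eLpNorm_map_measure`, `fold_fderiv`, `ae_ne`. -/
theorem poin_fold {ν : Measure (Vn n)} (hν : ν ≪ volume) {C : ℝ}
    (hP : PoincareWith ν C) : PoincareWith (ν.map (fold I)) C := by
  intro f hf
  obtain ⟨L, hL⟩ := hf
  have hfold : Measurable (fold I) := (fold_cont I).measurable
  have hff : LipschitzWith L fun x => f (fold I x) := by
    have := hL.comp (fold_lip I)
    rwa [mul_one] at this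
  have h1 := hP (fun x => f (fold I x)) ⟨L, hff⟩
  have hfm : Measurable f := hL.continuous.measurable
  have e1 : ∫ y, f y ∂(ν.map (fold I)) = ∫ y, f (fold I y) ∂ν :=
    integral_map hfold.aemeasurable hfm.aestronglyMeasurable
  rw [e1, eLpNorm_map_measure (by fun_prop) hfold.aemeasurable,
    eLpNorm_map_measure (measurable_fderiv ℝ f).norm.aestronglyMeasurable hfold.aemeasurable]
  refine h1.trans (le_of_eq ?_)
  congr 1
  refine eLpNorm_congr_ae ?_
  filter_upwards [hν.ae_le (ae_ne I)] with x hx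
  exact fold_fderiv I f hx

/-- Main theorem: `fixed_space` for `unf I h` with `k = 1`, `T = id`, `b = 0`, then `poin_fold` and
`unf_map`. If `D < 0`, first replace `D` by `0` (`ENNReal.ofReal` vanishes in both cases). -/
theorem monotone_kls (h0 : ∀ x, 0 ≤ h x) (hm : Measurable h) (hlc : LogConc h) (hM : Mono I h)
    {d : ℕ} (hd : n ≤ I.card + d) {μ : Measure (Vn n)}
    (hμ : μ = volume.withDensity fun x => ENNReal.ofReal (h x)) [IsProbabilityMeasure μ] {D : ℝ}
    (hD : LinPoincareWith μ D) : PoincareWith μ (2 * CF 1 d * D) := by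
  obtain ⟨hi, hI1, -, -⟩ := fm_int h0 hm hlc hμ
  have hM0 : 0 ≤ max D 0 := le_max_right _ _
  have hD' : LinPoincareWith μ (max D 0) := fun θ => (hD θ).trans
    (ENNReal.ofReal_le_ofReal (mul_le_mul_of_nonneg_right (le_max_left _ _) (norm_nonneg _)))
  have h1 := (lin_iff h0 hm hlc hμ hM0).1 hD'
  have h2 := unf_var h0 hm hlc hM hI1 h1
  have hprob0 : IsProbabilityMeasure
      ((volume : Measure (Vn n)).withDensity fun x => ENNReal.ofReal (h x)) := by
    rw [← hμ]
    infer_instance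
  obtain ⟨ν, hν⟩ : ∃ ν : Measure (Vn n), ν = volume.withDensity fun x => ENNReal.ofReal (unf I h x) :=
    ⟨_, rfl⟩
  have hprob : IsProbabilityMeasure ν := by
    rw [hν]
    exact unf_prob h0 hm hM
  have h3 : LinPoincareWith ν (2 * max D 0) :=
    (lin_iff (unf_nonneg h0) (unf_meas hm) (unf_lc h0 hM hlc) hν (by positivity)).2 h2
  have hmap : ν.map (fun x => (ContinuousLinearMap.id ℝ (Vn n)) x + 0) = ν := by
    have : (fun x : Vn n => (ContinuousLinearMap.id ℝ (Vn n)) x + 0) = id := by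
      funext x
      simp
    rw [this, Measure.map_id]
  have h4 := fixed_space (T := ContinuousLinearMap.id ℝ (Vn n)) (b := 0) (D := 2 * max D 0)
    (unf_nonneg h0) (unf_meas hm) (unf_lc h0 hM hlc) le_rfl (unf_fix (h := h) hd) hν
    Function.surjective_id (by rw [hmap]; exact h3)
  rw [hmap] at h4
  have h5 : PoincareWith (ν.map (fold I)) (CF 1 d * (2 * max D 0)) := by
    refine poin_fold ?_ h4
    rw [hν]
    exact withDensity_absolutelyContinuous _ _
  rw [hν, unf_map h0 hm hM, ← hμ] at h5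
  have hCF : 0 ≤ CF 1 d := by
    unfold CF
    split_ifs <;> positivity
  have e : ENNReal.ofReal (CF 1 d * (2 * max D 0)) = ENNReal.ofReal (2 * CF 1 d * D) := by
    rcases le_total 0 D with hD0 | hD0
    · rw [max_eq_left hD0]
      congr 1
      ring
    · rw [max_eq_right hD0, mul_zero, mul_zero, ENNReal.ofReal_zero]
      exact (ENNReal.ofReal_of_nonpos (mul_nonpos_of_nonneg_of_nonpos (by positivity) hD0)).symm
  intro f hf
  rw [← e]
  exact h5 f hf

end Pool.Agent.Lib.MP_8d00da_gt.h97t
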